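import Pool.Agent.Helper49.RU.St

/-!
# Project RU (MP_a60174_an), module EMB: a complemented copy of the real `ℓ²` in `L^p`
-/

set_option autoImplicit false

namespace Pool.Agent.Helper64.RU

open Pool.Agent.Helper49.RU
open MeasureTheory Filter Topology Complex
open scoped ENNReal Cardinal ComplexConjugate

instance probI : IsProbabilityMeasure mI := ⟨by
  rw [Measure.restrict_apply MeasurableSet.univ, Set.univ_inter, Real.volume_Icc]
  simp⟩

theorem rad_pm (n : ℕ) (x : ℝ) : rad n x = 1 ∨ rad n x = -1 := by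
  unfold rad
  rcases Int.even_or_odd ⌊(2 : ℝ) ^ (n + 1) * x⌋ with h | h
  · left
    exact h.neg_one_zpow
  · right
    exact h.neg_one_zpow

theorem rad_norm (n : ℕ) (x : ℝ) : ‖rad n x‖ ≤ 1 := by
  rcases rad_pm n x with h | h <;> rw [h] <;> simp

theorem rad_sq (n : ℕ) (x : ℝ) : rad n x * rad n x = 1 := by
  rcases rad_pm n x with h | h <;> rw [h] <;> norm_num

theorem rad_meas (n : ℕ) : Measurable (rad n) := by
  have h1 : Measurable (fun x : ℝ => ⌊(2 : ℝ) ^ (n + 1) * x⌋) :=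
    Int.measurable_floor.comp (measurable_const_mul _)
  exact (measurable_of_countable (fun k : ℤ => (-1 : ℝ) ^ k)).comp h1

theorem rad_mem (p : ℝ≥0∞) (n : ℕ) : MemLp (rad n) p mI :=
  MemLp.of_bound (rad_meas n).aestronglyMeasurable 1 (Eventually.of_forall (rad_norm n))

/-- the Rademacher functions in `L^p` -/
noncomputable def rr (p : ℝ≥0∞) (n : ℕ) : LpI p := (rad_mem p n).toLp (rad n)

theorem rr_coe (p : ℝ≥0∞) (n : ℕ) : (rr p n : ℝ → ℝ) =ᵐ[mI] rad n :=
  (rad_mem p n).coeFn_toLp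

section Coef

variable {p : ℝ≥0∞} [hp1 : Fact (1 ≤ p)]

theorem int_mul (f : LpI p) (n : ℕ) : Integrable (fun x => f x * rad n x) mI :=
  ((Lp.memLp f).integrable hp1.out).mul_bdd (rad_meas n).aestronglyMeasurable
    (Eventually.of_forall (rad_norm n))

/-- the coefficients -/
noncomputable def cn (n : ℕ) (f : LpI p) : ℝ := ∫ x, f x * rad n x ∂mI

theorem cn_add (n : ℕ) (f g : LpI p) : cn n (f + g) = cn n f + cn n g := by
  unfold cn
  rw [← integral_add (int_mul f n) (int_mul g n)]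
  refine integral_congr_ae ?_
  filter_upwards [Lp.coeFn_add f g] with x hx
  rw [hx, Pi.add_apply, add_mul]

theorem cn_smul (n : ℕ) (c : ℝ) (f : LpI p) : cn n (c • f) = c * cn n f := by
  unfold cn
  rw [← integral_const_mul]
  refine integral_congr_ae ?_
  filter_upwards [Lp.coeFn_smul c f] with x hx
  rw [hx, Pi.smul_apply, smul_eq_mul, mul_assoc]

theorem cn_rr (hWAL : StWAL) (m n : ℕ) : cn m (rr p n) = if n = m then 1 else 0 := by
  have h1 : cn m (rr p n) = ∫ x, rad n x * rad m x ∂mI := by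
    unfold cn
    refine integral_congr_ae ?_
    filter_upwards [rr_coe p n] with x hx
    rw [hx]
  rw [h1]
  split_ifs with h
  · subst h
    simp only [rad_sq]
    simp
  · have h2 := hWAL {n, m} ⟨n, by simp⟩
    have h3 : (fun x => ∏ k ∈ ({n, m} : Finset ℕ), rad k x) = fun x => rad n x * rad m x := by
      funext x
      exact Finset.prod_pair h
    rw [h3] at h2
    exact h2

theorem holder_aux (q : ℝ≥0∞) (hpq : ENNReal.HolderTriple p q 1) (f g : ℝ → ℝ)
    (hf : AEStronglyMeasurable f mI) (hg : AEStronglyMeasurable g mI) :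
    ‖∫ x, f x * g x ∂mI‖ₑ ≤ eLpNorm f p mI * eLpNorm g q mI := by
  have h1 : eLpNorm (fun x => f x * g x) 1 mI ≤ ((1 : NNReal) : ℝ≥0∞) * eLpNorm f p mI *
      eLpNorm g q mI :=
    eLpNorm_le_eLpNorm_mul_eLpNorm'_of_norm (p := p) (q := q) (r := 1) hf hg
      (fun a b : ℝ => a * b) 1 (Eventually.of_forall fun x => by
        rw [norm_mul]
        simp)
  rw [ENNReal.coe_one, one_mul] at h1
  calc ‖∫ x, f x * g x ∂mI‖ₑ ≤ ∫⁻ x, ‖f x * g x‖ₑ ∂mI := enorm_integral_le_lintegral_enorm _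
      _ = eLpNorm (fun x => f x * g x) 1 mI := by rw [eLpNorm_one_eq_lintegral_enorm]
      _ ≤ _ := h1

theorem key {C : ℝ} (hC0 : 0 ≤ C)
    (hC : ∀ (F : Finset ℕ) (a : ℕ → ℝ),
      eLpNorm (fun x => ∑ n ∈ F, a n * rad n x) (ENNReal.conjExponent p) mI ≤
        ENNReal.ofReal (C * Real.sqrt (∑ n ∈ F, a n ^ 2)))
    (f : LpI p) (F : Finset ℕ) : ∑ n ∈ F, cn n f ^ 2 ≤ (C * ‖f‖) ^ 2 := by
  set s : ℝ := ∑ n ∈ F, cn n f ^ 2 with hs
  have hs0 : 0 ≤ s := Finset.sum_nonneg fun n _ => sq_nonneg _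
  set g : ℝ → ℝ := fun x => ∑ n ∈ F, cn n f * rad n x with hg
  have hgm : Measurable g := Finset.measurable_fun_sum F fun n _ => (rad_meas n).const_mul _
  have e1 : s = ∫ x, f x * g x ∂mI := by
    have h1 : (fun x => f x * g x) = fun x => ∑ n ∈ F, cn n f * (f x * rad n x) := by
      funext x
      rw [hg, Finset.mul_sum]
      exact Finset.sum_congr rfl fun n _ => by ring
    rw [h1, integral_finsetSum F fun n _ => (int_mul f n).const_mul _, hs]
    refine Finset.sum_congr rfl fun n _ => ?_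
    rw [integral_const_mul, pow_two]
    rfl
  have e2 : ‖∫ x, f x * g x ∂mI‖ₑ ≤
      eLpNorm f p mI * eLpNorm g (ENNReal.conjExponent p) mI :=
    holder_aux (p := p) (ENNReal.conjExponent p)
      (ENNReal.HolderConjugate.conjExponent hp1.out) f g (Lp.aestronglyMeasurable f)
      hgm.aestronglyMeasurable
  have e3 : eLpNorm f p mI = ENNReal.ofReal ‖f‖ := by
    rw [Lp.norm_def, ENNReal.ofReal_toReal (Lp.eLpNorm_ne_top f)]
  have e4 : ENNReal.ofReal s ≤ ENNReal.ofReal (‖f‖ * (C * Real.sqrt s)) := by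
    calc ENNReal.ofReal s = ‖∫ x, f x * g x ∂mI‖ₑ := by
          rw [← e1, Real.enorm_of_nonneg hs0]
      _ ≤ eLpNorm f p mI * eLpNorm g (ENNReal.conjExponent p) mI := e2
      _ ≤ ENNReal.ofReal ‖f‖ * ENNReal.ofReal (C * Real.sqrt s) := by
          rw [e3]
          gcongr
          exact hC F (fun n => cn n f)
      _ = ENNReal.ofReal (‖f‖ * (C * Real.sqrt s)) :=
          (ENNReal.ofReal_mul (norm_nonneg f)).symm
  have e5 : s ≤ ‖f‖ * (C * Real.sqrt s) :=
    (ENNReal.ofReal_le_ofReal_iff (by positivity)).1 e4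
  have e6 : Real.sqrt s * Real.sqrt s = s := Real.mul_self_sqrt hs0
  have e7 : Real.sqrt s ≤ C * ‖f‖ := by
    rcases (Real.sqrt_nonneg s).eq_or_lt with h | h
    · rw [← h]
      positivity
    · refine le_of_mul_le_mul_right ?_ h
      rw [e6]
      linarith [e5, mul_comm ‖f‖ (C * Real.sqrt s), mul_assoc C (Real.sqrt s) ‖f‖,
        mul_comm (Real.sqrt s) ‖f‖, mul_assoc C ‖f‖ (Real.sqrt s)]
  calc s = Real.sqrt s * Real.sqrt s := e6.symm
    _ ≤ (C * ‖f‖) * (C * ‖f‖) := mul_le_mul e7 e7 (Real.sqrt_nonneg s) (by positivity)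
    _ = (C * ‖f‖) ^ 2 := by ring

theorem sum_coe (a : ℕ → ℝ) (F : Finset ℕ) :
    ((∑ n ∈ F, a n • rr p n : LpI p) : ℝ → ℝ) =ᵐ[mI] fun x => ∑ n ∈ F, a n * rad n x := by
  classical
  refine Finset.induction_on F ?_ ?_
  · simp only [Finset.sum_empty]
    exact Lp.coeFn_zero ℝ p mI
  · intro n F hn ih
    rw [Finset.sum_insert hn]
    filter_upwards [Lp.coeFn_add (a n • rr p n) (∑ n ∈ F, a n • rr p n), ih,
      Lp.coeFn_smul (a n) (rr p n), rr_coe p n] with x h1 h2 h3 h4
    rw [h1, Pi.add_apply, h2, h3, Pi.smul_apply, h4, smul_eq_mul, Finset.sum_insert hn]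

theorem sum_norm {C : ℝ} (hC0 : 0 ≤ C)
    (hC : ∀ (F : Finset ℕ) (a : ℕ → ℝ),
      eLpNorm (fun x => ∑ n ∈ F, a n * rad n x) p mI ≤
        ENNReal.ofReal (C * Real.sqrt (∑ n ∈ F, a n ^ 2)))
    (a : ℕ → ℝ) (F : Finset ℕ) :
    ‖(∑ n ∈ F, a n • rr p n : LpI p)‖ ≤ C * Real.sqrt (∑ n ∈ F, a n ^ 2) := by
  rw [Lp.norm_def, eLpNorm_congr_ae (sum_coe a F)]
  exact ENNReal.toReal_le_of_le_ofReal (by positivity) (hC F a)

end Coef

theorem two_pos : 0 < (2 : ℝ≥0∞).toReal := by simp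

theorem sq_sum_le (a : lp (fun _ : ℕ => ℝ) 2) (F : Finset ℕ) :
    ∑ n ∈ F, (a n) ^ 2 ≤ ‖a‖ ^ 2 := by
  have h := lp.sum_rpow_le_norm_rpow two_pos a F
  simpa using h

theorem sq_summable (a : lp (fun _ : ℕ => ℝ) 2) : Summable (fun n => (a n) ^ 2) := by
  have h := (lp.memℓp a).summable two_pos
  simpa using h

theorem hEMB (hWAL : StWAL) (hKHI : StKHI) : StEMB := by
  intro p hp1 hp2 hp3
  obtain ⟨C, hC0, hC⟩ := hKHI p hp1.out hp3
  have hq1 : 1 ≤ ENNReal.conjExponent p := by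
    unfold ENNReal.conjExponent
    exact le_self_add
  have hq2 : ENNReal.conjExponent p ≠ ∞ := by
    unfold ENNReal.conjExponent
    exact ENNReal.add_ne_top.2 ⟨ENNReal.one_ne_top,
      ENNReal.inv_ne_top.2 (tsub_pos_iff_lt.2 hp2).ne'⟩
  obtain ⟨C', hC'0, hC'⟩ := hKHI _ hq1 hq2
  -- the series
  have hsum : ∀ a : lp (fun _ : ℕ => ℝ) 2, Summable (fun n => a n • rr p n) := by
    intro a
    rw [summable_iff_vanishing_norm]
    intro ε hε
    have hδ : 0 < (ε / (C + 1)) ^ 2 := by positivity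
    obtain ⟨s, hs⟩ := summable_iff_vanishing_norm.1 (sq_summable a) _ hδ
    refine ⟨s, fun t ht => ?_⟩
    have h1 := hs t ht
    have h2 : ∑ n ∈ t, (a n) ^ 2 ≤ (ε / (C + 1)) ^ 2 := (le_abs_self _).trans h1.le
    have h3 : Real.sqrt (∑ n ∈ t, (a n) ^ 2) ≤ ε / (C + 1) := by
      rw [Real.sqrt_le_left (by positivity)]
      exact h2
    calc ‖∑ n ∈ t, a n • rr p n‖ ≤ C * Real.sqrt (∑ n ∈ t, (a n) ^ 2) := sum_norm hC0 hC _ t
      _ ≤ C * (ε / (C + 1)) := mul_le_mul_of_nonneg_left h3 hC0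
      _ < ε := by
        rw [mul_div_assoc', div_lt_iff₀ (by positivity)]
        nlinarith
  have hbound : ∀ a : lp (fun _ : ℕ => ℝ) 2, ‖∑' n, a n • rr p n‖ ≤ C * ‖a‖ := by
    intro a
    refine le_of_tendsto (hsum a).hasSum.norm (Eventually.of_forall fun F => ?_)
    refine (sum_norm hC0 hC _ F).trans (mul_le_mul_of_nonneg_left ?_ hC0)
    rw [Real.sqrt_le_left (norm_nonneg a)]
    exact sq_sum_le a F
  let i : lp (fun _ : ℕ => ℝ) 2 →L[ℝ] LpI p := LinearMap.mkContinuous
    { toFun := fun a => ∑' n, a n • rr p n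
      map_add' := by
        intro a b
        rw [← (hsum a).tsum_add (hsum b)]
        refine tsum_congr fun n => ?_
        rw [← add_smul]
        rfl
      map_smul' := by
        intro c a
        rw [RingHom.id_apply, ← (hsum a).tsum_const_smul c]
        refine tsum_congr fun n => ?_
        rw [smul_smul]
        rfl } C hbound
  have hmem : ∀ f : LpI p, Memℓp (fun n => cn n f) (2 : ℝ≥0∞) := by
    intro f
    refine memℓp_gen' (C := (C' * ‖f‖) ^ 2) fun F => ?_
    have h := key hC'0 hC' f F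
    simpa using h
  let q : LpI p →L[ℝ] lp (fun _ : ℕ => ℝ) 2 := LinearMap.mkContinuous
    { toFun := fun f => ⟨fun n => cn n f, hmem f⟩
      map_add' := by
        intro f g
        ext n
        exact cn_add n f g
      map_smul' := by
        intro c f
        ext n
        exact cn_smul n c f } C' (by
      intro f
      refine lp.norm_le_of_forall_sum_le two_pos (by positivity) fun F => ?_
      have h := key hC'0 hC' f F
      simpa using h)
  have hq : ∀ f n, (q f) n = cn n f := fun f n => rfl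
  let ev : ℕ → lp (fun _ : ℕ => ℝ) 2 →L[ℝ] ℝ := fun m => LinearMap.mkContinuous
    { toFun := fun a => a m
      map_add' := fun a b => rfl
      map_smul' := fun c a => rfl } 1 (by
      intro a
      rw [one_mul]
      exact lp.norm_apply_le_norm (by simp) a m)
  refine ⟨i, q, fun a => ?_⟩
  ext m
  have h1 : (q (i a)) m = ((ev m).comp q) (∑' n, a n • rr p n) := rfl
  rw [h1, ContinuousLinearMap.map_tsum _ (hsum a)]
  have h2 : ∀ n, ((ev m).comp q) (a n • rr p n) = a n * (if n = m then 1 else 0) := by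
    intro n
    rw [ContinuousLinearMap.map_smul, smul_eq_mul]
    congr 1
    exact cn_rr hWAL m n
  rw [tsum_congr h2, tsum_eq_single m (fun n hn => by rw [if_neg hn, mul_zero]), if_pos rfl,
    mul_one]

end Pool.Agent.Helper64.RU
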